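import Mathlib

/-!
# Squeezing function near the boundary and strong pseudoconvexity (MP_ab90d5_an, frozen S05773)

Definitions and exact statements of the parts. Every part is a closed proposition `S_...`.
-/

set_option autoImplicit false
open Metric Set Filter Topology

namespace Pool.Agent.W589.SQ

/-- complex Euclidean space -/
abbrev En (n : ℕ) : Type := EuclideanSpace ℂ (Fin n)

/-- `2 ∂ρ` at `z` applied to the vector `v`; complex linear in `v` -/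
noncomputable def av {n : ℕ} (ρ : En n → ℝ) (z v : En n) : ℂ :=
  (fderiv ℝ ρ z v : ℂ) - Complex.I * (fderiv ℝ ρ z (Complex.I • v) : ℂ)

/-- the (fourfold) Levi form -/
noncomputable def lev {n : ℕ} (ρ : En n → ℝ) (z w : En n) : ℝ :=
  fderiv ℝ (fderiv ℝ ρ) z w w + fderiv ℝ (fderiv ℝ ρ) z (Complex.I • w) (Complex.I • w)

/-- the Laplacian in one complex variable -/
noncomputable def lap (h : ℂ → ℝ) (ζ : ℂ) : ℝ :=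
  fderiv ℝ (fderiv ℝ h) ζ 1 1 + fderiv ℝ (fderiv ℝ h) ζ Complex.I Complex.I

/-- bounded domain `ρ < 0` with smooth pseudoconvex boundary -/
structure Dom {n : ℕ} (Ω : Set (En n)) (ρ : En n → ℝ) : Prop where
  bdd : Bornology.IsBounded Ω
  smooth : ContDiff ℝ ((⊤ : ℕ∞) : WithTop ℕ∞) ρ
  eq : Ω = {x | ρ x < 0}
  reg : ∀ p ∈ frontier Ω, fderiv ℝ ρ p ≠ 0
  psc : ∀ p ∈ frontier Ω, ∀ w : En n, fderiv ℝ ρ p w = 0 →
    fderiv ℝ ρ p (Complex.I • w) = 0 → 0 ≤ lev ρ p w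

/-- a squeezing map at `z` with its inverse -/
structure Sq {n : ℕ} (Ω : Set (En n)) (z : En n) (ε : ℝ) (f g : En n → En n) : Prop where
  fd : DifferentiableOn ℂ f Ω
  fm : MapsTo f Ω (ball 0 1)
  fz : f z = 0
  gd : DifferentiableOn ℂ g (ball 0 (1 - ε))
  gm : MapsTo g (ball 0 (1 - ε)) Ω
  fg : ∀ w ∈ ball (0 : En n) (1 - ε), f (g w) = w
  gf : ∀ x ∈ Ω, f x ∈ ball (0 : En n) (1 - ε) → g (f x) = x

/-! ### Geometry -/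

/-- the distance to the boundary is at most a constant times `-ρ` -/
def S_DIST : Prop := ∀ (n : ℕ) (Ω : Set (En n)) (ρ : En n → ℝ), Dom Ω ρ →
  (frontier Ω).Nonempty →
  ∃ C : ℝ, 0 < C ∧ ∀ z ∈ Ω, ∃ q ∈ frontier Ω, ‖z - q‖ ≤ C * (-ρ z)

/-- lower bound for the Levi form inside the domain -/
def S_LEV : Prop := ∀ (n : ℕ) (Ω : Set (En n)) (ρ : En n → ℝ), Dom Ω ρ →
  (frontier Ω).Nonempty →
  ∃ C : ℝ, 0 < C ∧ ∀ z ∈ Ω, ∀ w : En n,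
    -(C * ((-ρ z) * ‖w‖ ^ 2 + ‖w‖ * ‖av ρ z w‖)) ≤ lev ρ z w

/-! ### One complex variable -/

/-- a positive function with `Δh ≤ C (h + |∇h|)` has controlled circle averages of `h ^ η` -/
def S_SUP : Prop := ∀ C η : ℝ, 0 < C → 0 < η → η < 1 → ∃ r₁ : ℝ, 0 < r₁ ∧ r₁ ≤ 1 / 2 ∧
  ∀ h : ℂ → ℝ, ContDiffOn ℝ 2 h (ball 0 1) → (∀ ζ ∈ ball (0 : ℂ) 1, 0 < h ζ) →
    (∀ ζ ∈ ball (0 : ℂ) (1 / 2), lap h ζ ≤ C * (h ζ + ‖fderiv ℝ h ζ‖)) →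
    ∀ r : ℝ, 0 < r → r < r₁ → Real.circleAverage (fun ζ => h ζ ^ η) 0 r ≤ 2 * h 0 ^ η

/-- interpolation: small circle averages and bounded derivatives give a small gradient -/
def S_INT : Prop := ∀ m : ℕ, 1 ≤ m → ∃ K : ℝ, 0 < K ∧ ∀ (h : ℂ → ℝ) (R M B : ℝ),
  0 < R → R ≤ 1 / 2 → 0 ≤ M → 0 ≤ B →
  ContDiffOn ℝ ((⊤ : ℕ∞) : WithTop ℕ∞) h (ball 0 1) → (∀ ζ ∈ ball (0 : ℂ) 1, 0 ≤ h ζ) →
  (∀ e : ℂ, ‖e‖ = 1 → ∀ x ∈ Icc (0 : ℝ) (1 / 2),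
    |iteratedDeriv (m + 1) (fun t : ℝ => h ((t : ℂ) * e)) x| ≤ M) →
  (∀ r : ℝ, 0 < r → r < R → Real.circleAverage h 0 r ≤ B) →
  ∀ r : ℝ, 0 < r → m * r < R → r * ‖fderiv ℝ h 0‖ ≤ K * (h 0 + B + M * r ^ (m + 1))

/-- derivative bounds for holomorphic discs in the domain -/
def S_DER : Prop := ∀ (n : ℕ) (Ω : Set (En n)) (ρ : En n → ℝ), Dom Ω ρ → ∀ m : ℕ,
  ∃ M : ℝ, 0 < M ∧ ∀ g : ℂ → En n, DifferentiableOn ℂ g (ball 0 1) → MapsTo g (ball 0 1) Ω →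
    (∀ ζ ∈ closedBall (0 : ℂ) (1 / 2), ‖deriv g ζ‖ ≤ M) ∧
    ∀ e : ℂ, ‖e‖ = 1 → ∀ x ∈ Icc (0 : ℝ) (1 / 2),
      |iteratedDeriv m (fun t : ℝ => ρ (g ((t : ℂ) * e))) x| ≤ M

/-- the derivative of a disc in the normal direction is almost `O(-ρ)` -/
def S_NOR : Prop := ∀ (n : ℕ) (Ω : Set (En n)) (ρ : En n → ℝ), Dom Ω ρ →
  (frontier Ω).Nonempty → ∀ γ : ℝ, 0 < γ → γ < 1 →
  ∃ C : ℝ, 0 < C ∧ ∀ g : ℂ → En n, DifferentiableOn ℂ g (ball 0 1) → MapsTo g (ball 0 1) Ω →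
    ‖av ρ (g 0) (deriv g 0)‖ ≤ C * (-ρ (g 0)) ^ γ

/-! ### Upper bounds for derivatives of maps into the ball -/

/-- tangential direction -/
def S_TAN : Prop := ∀ (n : ℕ) (Ω : Set (En n)) (ρ : En n → ℝ), Dom Ω ρ →
  ∀ p ∈ frontier Ω, ∀ ν : En n, av ρ p ν = -1 →
  ∃ c : ℝ, 0 < c ∧ ∀ z ∈ Ω, ‖z - p‖ < c → ∀ X : En n, ‖X‖ ≤ 1 → av ρ z X = 0 →
    ∀ r : ℝ, 0 < r → r ≤ c → r ^ 2 * lev ρ z X ≤ -ρ z → r ^ 3 ≤ c * (-ρ z) →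
    ∀ f : En n → En n, DifferentiableOn ℂ f Ω → MapsTo f Ω (ball 0 1) → f z = 0 →
      r * ‖fderiv ℂ f z X‖ ≤ 1

/-- crude bounds -/
def S_CRUDE : Prop := ∀ (n : ℕ) (Ω : Set (En n)) (ρ : En n → ℝ), Dom Ω ρ →
  ∃ C : ℝ, 0 < C ∧
  (∀ z ∈ Ω, ∀ f : En n → En n, DifferentiableOn ℂ f Ω → MapsTo f Ω (ball 0 1) →
    ‖fderiv ℂ f z‖ * (-ρ z) ≤ C) ∧
  (∀ g : En n → En n, DifferentiableOn ℂ g (ball 0 (1 / 2)) → MapsTo g (ball 0 (1 / 2)) Ω →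
    ‖fderiv ℂ g 0‖ ≤ C)

/-! ### The slice -/

/-- a holomorphic curve `p + P(ζ) ν` on which `-ρ` is `Re ζ` up to small errors -/
def S_SLICE : Prop := ∀ (n : ℕ) (ρ : En n → ℝ) (p ν : En n),
  ContDiff ℝ ((⊤ : ℕ∞) : WithTop ℕ∞) ρ → ρ p = 0 → av ρ p ν = -1 →
  ∃ (P : Polynomial ℂ) (C r₁ : ℝ), 0 < C ∧ 0 < r₁ ∧ P.eval 0 = 0 ∧
    (Polynomial.derivative P).eval 0 = 1 ∧
    ∀ ζ : ℂ, ‖ζ‖ < r₁ →
      |-ρ (p + P.eval ζ • ν) - ζ.re| ≤ C * (|ζ.re| * ‖ζ‖ + |ζ.im| ^ 6)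

/-- a holomorphic covector along the slice that approximates `av` -/
def S_COV : Prop := ∀ (n : ℕ) (ρ : En n → ℝ) (p ν : En n) (P : Polynomial ℂ),
  ContDiff ℝ ((⊤ : ℕ∞) : WithTop ℕ∞) ρ → P.eval 0 = 0 →
  ∃ (A : ℂ → (En n →L[ℂ] ℂ)) (C : ℝ), 0 < C ∧ Differentiable ℂ A ∧
    (∀ v : En n, A 0 v = av ρ p v) ∧
    ∀ ζ : ℂ, ‖ζ‖ < 1 → ∀ v : En n,
      ‖A ζ v - av ρ (p + P.eval ζ • ν) v‖ ≤ C * (|ζ.re| + |ζ.im| ^ 6) * ‖v‖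

/-- the Levi form of the tangential field through a null vector vanishes to second order -/
def S_FB : Prop := ∀ (n : ℕ) (Ω : Set (En n)) (ρ : En n → ℝ), Dom Ω ρ →
  ∀ p ∈ frontier Ω, ∀ ν w₀ : En n, av ρ p ν = -1 → av ρ p w₀ = 0 → lev ρ p w₀ = 0 →
  ∃ C r₁ : ℝ, 0 < C ∧ 0 < r₁ ∧ ∀ z : En n, ‖z - p‖ < r₁ →
    lev ρ z (av ρ z ν • w₀ - av ρ z w₀ • ν) ≤ C * (|ρ z| + ‖z - p‖ ^ 2)

/-! ### Comparison and maximum principle -/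

/-- comparison of two squeezing maps -/
def S_CMP : Prop := ∀ (n : ℕ) (Ω : Set (En n)) (ε : ℝ) (z₀ z' : En n)
  (f₀ g₀ f' g' : En n → En n), IsOpen Ω → 0 < ε → ε ≤ 1 / 4 → z' ∈ Ω →
  Sq Ω z₀ ε f₀ g₀ → Sq Ω z' ε f' g' → ‖f₀ z'‖ ≤ 1 / 2 →
  ∀ (X e₁ e₂ : En n) (A : En n →L[ℂ] ℂ), ‖e₁‖ ≤ 1 → ‖e₂‖ ≤ 1 →
    (1 - 4 * ε) * (‖(inner ℂ e₁ (fderiv ℂ f₀ z' X) : ℂ)‖ ^ 2 *
      ‖A (fderiv ℂ g₀ (f₀ z') e₂)‖) ≤
    ‖fderiv ℂ f' z' X‖ ^ 2 * ‖A.comp (fderiv ℂ g' 0)‖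

/-- outer region -/
def Rp (L r₀ δ₀ : ℝ) : Set ℂ := {ζ | ‖ζ‖ < 2 * r₀ ∧ L * (|ζ.im| + δ₀) ^ 6 < ζ.re}

/-- inner region -/
def Ri (L r₀ δ₀ : ℝ) : Set ℂ := {ζ | ‖ζ‖ < r₀ ∧ 64 * L * (|ζ.im| + δ₀) ^ 6 < ζ.re}

/-- a maximum principle for functions that are almost moduli of holomorphic functions -/
def S_MAX : Prop := ∀ (L r₀ δ₀ A M : ℝ) (u : ℂ → ℝ), 1 ≤ L → 0 < r₀ → r₀ ≤ 1 →
  L * r₀ ^ 5 ≤ 1 → 0 < δ₀ → 0 ≤ A →
  (∀ ζ ∈ Rp L r₀ δ₀, 0 ≤ u ζ ∧ u ζ ≤ M) →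
  (∀ ζ₀ ∈ Ri L r₀ δ₀, ∃ H : ℂ → ℂ, DifferentiableOn ℂ H (ball ζ₀ (ζ₀.re / 3)) ∧
    u ζ₀ ≤ ‖H ζ₀‖ ∧ ∀ ζ : ℂ, ‖ζ - ζ₀‖ ≤ ζ₀.re / 4 → 999 / 1000 * ‖H ζ‖ ≤ u ζ) →
  (∀ ζ ∈ Rp L r₀ δ₀, ζ ∉ Ri L r₀ δ₀ → u ζ ^ 8 ≤ A * ζ.re) →
  ∀ ζ ∈ Ri L r₀ δ₀, u ζ ^ 8 ≤ 2 * A * ζ.re

/-! ### Basic facts -/

section Basic

variable {n : ℕ} {ρ : En n → ℝ}

theorem av_add (z v w : En n) : av ρ z (v + w) = av ρ z v + av ρ z w := by
  unfold av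
  rw [smul_add, map_add, map_add]
  push_cast
  ring

theorem av_smul (z v : En n) (c : ℂ) : av ρ z (c • v) = c * av ρ z v := by
  unfold av
  have h1 : c • v = (c.re : ℝ) • v + (c.im : ℝ) • (Complex.I • v) := by
    rw [← Complex.coe_smul c.re, ← Complex.coe_smul c.im, smul_smul, ← add_smul]
    congr 1
    exact (Complex.re_add_im c).symm
  have h2 : Complex.I • (c • v) = (c.re : ℝ) • (Complex.I • v) + (-c.im : ℝ) • v := by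
    rw [← Complex.coe_smul c.re, ← Complex.coe_smul (-c.im), smul_smul, smul_smul, ← add_smul]
    congr 1
    apply Complex.ext <;> simp
  rw [h2, h1]
  simp only [map_add, map_smul, smul_eq_mul]
  push_cast
  apply Complex.ext
  · simp
  · simp
    ring

theorem av_re (z v : En n) : (av ρ z v).re = fderiv ℝ ρ z v := by
  unfold av
  simp

theorem av_im (z v : En n) : (av ρ z v).im = -fderiv ℝ ρ z (Complex.I • v) := by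
  unfold av
  simp

theorem av_eq_zero_iff (z v : En n) :
    av ρ z v = 0 ↔ fderiv ℝ ρ z v = 0 ∧ fderiv ℝ ρ z (Complex.I • v) = 0 := by
  constructor
  · intro h
    have h1 := av_re (ρ := ρ) z v
    have h2 := av_im (ρ := ρ) z v
    rw [h] at h1 h2
    simp at h1 h2
    exact ⟨h1.symm, h2⟩
  · rintro ⟨h1, h2⟩
    unfold av
    rw [h1, h2]
    simp

theorem norm_av_le (z v : En n) : ‖av ρ z v‖ ≤ 2 * ‖fderiv ℝ ρ z‖ * ‖v‖ := by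
  unfold av
  refine (norm_sub_le _ _).trans ?_
  rw [norm_mul, Complex.norm_I, one_mul, Complex.norm_real, Complex.norm_real]
  have h1 := (fderiv ℝ ρ z).le_opNorm v
  have h2 := (fderiv ℝ ρ z).le_opNorm (Complex.I • v)
  rw [norm_smul, Complex.norm_I, one_mul] at h2
  linarith

theorem lev_smul (z w : En n) (c : ℂ) : lev ρ z (c • w) = ‖c‖ ^ 2 * lev ρ z w := by
  unfold lev
  have h1 : c • w = (c.re : ℝ) • w + (c.im : ℝ) • (Complex.I • w) := by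
    rw [← Complex.coe_smul c.re, ← Complex.coe_smul c.im, smul_smul, ← add_smul]
    congr 1
    exact (Complex.re_add_im c).symm
  have h2 : Complex.I • (c • w) = (c.re : ℝ) • (Complex.I • w) + (-c.im : ℝ) • w := by
    rw [← Complex.coe_smul c.re, ← Complex.coe_smul (-c.im), smul_smul, smul_smul, ← add_smul]
    congr 1
    apply Complex.ext <;> simp
  rw [h2, h1, ← Complex.normSq_eq_norm_sq, Complex.normSq_apply]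
  simp only [map_add, map_smul, smul_eq_mul, add_apply, smul_apply]
  ring

end Basic

variable {n : ℕ} {Ω : Set (En n)} {ρ : En n → ℝ}

theorem Dom.isOpen (H : Dom Ω ρ) : IsOpen Ω := by
  rw [H.eq]
  exact isOpen_lt H.smooth.continuous continuous_const

theorem Dom.zero_of_frontier (H : Dom Ω ρ) {p : En n} (hp : p ∈ frontier Ω) : ρ p = 0 := by
  have h1 : p ∈ closure Ω := frontier_subset_closure hp
  have h2 : p ∉ Ω := by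
    intro h
    rw [frontier_eq_closure_inter_closure] at hp
    have h3 : Ωᶜ = closure Ωᶜ := (H.isOpen.isClosed_compl.closure_eq).symm
    rw [← h3] at hp
    exact hp.2 h
  rw [H.eq] at h1 h2
  have h4 : p ∈ {x | ρ x ≤ 0} := by
    have h5 : IsClosed {x | ρ x ≤ 0} := isClosed_le H.smooth.continuous continuous_const
    have h6 : {x | ρ x < 0} ⊆ {x | ρ x ≤ 0} := by
      intro x hx
      simp only [Set.mem_ofPred_eq] at hx ⊢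
      exact hx.le
    exact h5.closure_subset_iff.2 h6 h1
  simp only [Set.mem_ofPred_eq, not_lt] at h2 h4
  exact le_antisymm h4 h2

theorem Dom.mem_iff (H : Dom Ω ρ) {z : En n} : z ∈ Ω ↔ ρ z < 0 := by
  rw [H.eq]
  simp only [Set.mem_ofPred_eq]

end Pool.Agent.W589.SQ
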